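import Mathlib

set_option autoImplicit false

/-!
Slenderness and a lemma of Chase for products, in the form needed for the Reid class.
-/

namespace Pool.Agent.H93.Reid

open Finset

/-- No 2-torsion and no nonzero infinitely 2-divisible element. -/
structure Sep (C : Type) [AddCommGroup C] : Prop where
  tf : ∀ c : C, 2 • c = 0 → c = 0
  sep : ∀ c : C, (∀ d : ℕ, ∃ c' : C, c = 2 ^ d • c') → c = 0

lemma Sep.of_injective {G H : Type} [AddCommGroup G] [AddCommGroup H] (hH : Sep H)
    (f : G →+ H) (hf : Function.Injective f) : Sep G := by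
  constructor
  · intro c hc
    apply hf
    rw [map_zero]
    apply hH.tf
    rw [← map_nsmul, hc, map_zero]
  · intro c hc
    apply hf
    rw [map_zero]
    apply hH.sep
    intro d
    obtain ⟨c', hc'⟩ := hc d
    exact ⟨f c', by rw [← map_nsmul, ← hc']⟩

lemma Sep.pow_tf {C : Type} [AddCommGroup C] (hC : Sep C) (d : ℕ) (c : C)
    (h : 2 ^ d • c = 0) : c = 0 := by
  induction d generalizing c with
  | zero => simpa using h
  | succ d ih =>
    rw [pow_succ, mul_smul] at h
    exact hC.tf _ (ih _ h)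

lemma Sep.exists_exp {C : Type} [AddCommGroup C] (hC : Sep C) (c : C) (hc : c ≠ 0) (d : ℕ) :
    ∃ e, d < e ∧ ∀ c' : C, 2 ^ d • c ≠ 2 ^ e • c' := by
  by_contra hcon
  push Not at hcon
  apply hc
  apply hC.sep
  intro k
  obtain ⟨c', hc'⟩ := hcon (d + k + 1) (by omega)
  refine ⟨2 • c', ?_⟩
  have h1 : 2 ^ d • (c - 2 ^ k • (2 • c')) = 0 := by
    rw [smul_sub, hc', sub_eq_zero]
    rw [smul_smul, smul_smul]
    congr 1
    ring
  have h2 := hC.pow_tf d _ h1
  exact sub_eq_zero.mp h2

section Prod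

variable {ι : Type} {X : ι → Type} [∀ i, AddCommGroup (X i)] (ρ : ι → ℕ)

/-- Infinite sums `∑ 2 ^ (d n) • a n` in a product, with divisible tails. -/
lemma exists_sum (a : ℕ → ∀ i, X i) (ha : ∀ n i, ρ i < n → a n i = 0)
    (d : ℕ → ℕ) (hd : Monotone d) :
    ∃ y : ∀ i, X i, ∀ m, ∃ w : ∀ i, X i, (∀ i, ρ i < m → w i = 0) ∧
      y = ∑ n ∈ range m, 2 ^ (d n) • a n + 2 ^ (d m) • w := by
  refine ⟨fun i => ∑ n ∈ range (ρ i + 1), 2 ^ (d n) • a n i, fun m => ?_⟩
  refine ⟨fun i => ∑ n ∈ Ico m (ρ i + 1), 2 ^ (d n - d m) • a n i, ?_, ?_⟩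
  · intro i hi
    show ∑ n ∈ Ico m (ρ i + 1), 2 ^ (d n - d m) • a n i = 0
    rw [Finset.Ico_eq_empty (by omega), Finset.sum_empty]
  · funext i
    simp only [Pi.add_apply, Finset.sum_apply, Pi.smul_apply]
    rcases le_or_gt m (ρ i + 1) with h | h
    · rw [← Finset.sum_range_add_sum_Ico _ h, Finset.smul_sum]
      congr 1
      apply Finset.sum_congr rfl
      intro n hn
      rw [Finset.mem_Ico] at hn
      rw [smul_smul, ← pow_add, Nat.add_sub_cancel' (hd hn.1)]
    · rw [Finset.Ico_eq_empty (by omega), Finset.sum_empty, smul_zero, add_zero,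
        ← Finset.sum_range_add_sum_Ico _ h.le]
      symm
      rw [add_eq_left]
      apply Finset.sum_eq_zero
      intro n hn
      rw [Finset.mem_Ico] at hn
      rw [ha n i (by omega), smul_zero]

/-- A homomorphism from a product to a countable separated group vanishes on a tail. -/
theorem slender {C : Type} [AddCommGroup C] [Countable C] (hC : Sep C)
    (f : (∀ i, X i) →+ C) :
    ∃ N, ∀ x : ∀ i, X i, (∀ i, ρ i < N → x i = 0) → f x = 0 := by
  classical
  by_contra hcon
  push Not at hcon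
  choose x hx hne using hcon
  have hE : ∀ (c : C) (d : ℕ), ∃ e, d < e ∧ (c ≠ 0 → ∀ c' : C, 2 ^ d • c ≠ 2 ^ e • c') := by
    intro c d
    by_cases hc : c = 0
    · exact ⟨d + 1, by omega, fun h => absurd hc h⟩
    · obtain ⟨e, he, he'⟩ := hC.exists_exp c hc d
      exact ⟨e, he, fun _ => he'⟩
  choose E hE1 hE2 using hE
  let d : ℕ → ℕ := fun n => Nat.rec 0 (fun n dn => E (f (x n)) dn) n
  have hds : ∀ n, d (n + 1) = E (f (x n)) (d n) := fun n => rfl
  have hd : StrictMono d := by
    apply strictMono_nat_of_lt_succ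
    intro n
    rw [hds]
    exact hE1 _ _
  have hd2 : ∀ n, ∀ c' : C, 2 ^ (d n) • f (x n) ≠ 2 ^ (d (n + 1)) • c' := by
    intro n
    rw [hds]
    exact hE2 _ _ (hne n)
  let a : Set ℕ → ℕ → ∀ i, X i := fun S n => if n ∈ S then x n else 0
  have ha : ∀ S n i, ρ i < n → a S n i = 0 := by
    intro S n i hi
    simp only [a]
    split_ifs
    · exact hx n i hi
    · rfl
  have hy := fun S => exists_sum ρ (a S) (ha S) d hd.monotone
  choose y hy using hy
  obtain ⟨enc, henc⟩ := exists_injective_nat C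
  apply Function.cantor_injective (fun S : Set ℕ => enc (f (y S)))
  intro S T hST
  have h1 : f (y S) = f (y T) := henc hST
  by_contra hne'
  have hex : ∃ n, ¬ (n ∈ S ↔ n ∈ T) := by
    by_contra hall
    push Not at hall
    exact hne' (Set.ext hall)
  obtain ⟨m, hm, hmin⟩ : ∃ m, ¬ (m ∈ S ↔ m ∈ T) ∧ ∀ n < m, (n ∈ S ↔ n ∈ T) := by
    refine ⟨Nat.find hex, Nat.find_spec hex, fun n hn => ?_⟩
    have := Nat.find_min hex hn
    push Not at this
    exact this
  obtain ⟨w, -, hw⟩ := hy S (m + 1)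
  obtain ⟨w', -, hw'⟩ := hy T (m + 1)
  rw [Finset.sum_range_succ] at hw hw'
  have hsum : ∑ n ∈ range m, 2 ^ d n • a S n = ∑ n ∈ range m, 2 ^ d n • a T n := by
    apply Finset.sum_congr rfl
    intro n hn
    rw [Finset.mem_range] at hn
    simp only [a, hmin n hn]
  rw [hsum] at hw
  rw [hw, hw'] at h1
  simp only [map_add, map_nsmul, add_assoc] at h1
  have h2 := add_left_cancel h1
  by_cases hS : m ∈ S
  · have hT : m ∉ T := fun hT => hm ⟨fun _ => hT, fun _ => hS⟩
    simp only [a, hS, hT, if_true, if_false, map_zero, smul_zero, zero_add] at h2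
    apply hd2 m (f w' - f w)
    rw [smul_sub, ← h2]
    abel
  · have hT : m ∈ T := by
      by_contra hT
      exact hm ⟨fun h => absurd h hS, fun h => absurd h hT⟩
    simp only [a, hS, hT, if_true, if_false, map_zero, smul_zero, zero_add] at h2
    apply hd2 m (f w - f w')
    rw [smul_sub, h2]
    abel

/-- Chase's lemma. -/
theorem chase {J : Type} {Y : J → Type} [∀ j, AddCommGroup (Y j)] (hY : ∀ j, Sep (Y j))
    (f : (∀ i, X i) →+ DirectSum J Y) :
    ∃ N, ∃ I : Finset J, ∀ x : ∀ i, X i, (∀ i, ρ i < N → x i = 0) →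
      ∀ j, j ∉ I → f x j = 0 := by
  classical
  by_contra hcon
  push Not at hcon
  choose xs hxs js hjs hne using hcon
  have hE : ∀ (j : J) (c : Y j) (d : ℕ), ∃ e, d < e ∧
      (c ≠ 0 → ∀ c' : Y j, 2 ^ d • c ≠ 2 ^ e • c') := by
    intro j c d
    by_cases hc : c = 0
    · exact ⟨d + 1, by omega, fun h => absurd hc h⟩
    · obtain ⟨e, he, he'⟩ := (hY j).exists_exp c hc d
      exact ⟨e, he, fun _ => he'⟩
  choose E hE1 hE2 using hE
  let supp : (∀ i, X i) → Finset J := fun s => (DFinsupp.finite_support (f s)).toFinset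
  let I : (∀ i, X i) × ℕ × Finset J → Finset J := fun t => t.2.2 ∪ supp t.1
  let st : ℕ → (∀ i, X i) × ℕ × Finset J := fun n => Nat.rec (0, 0, ∅) (fun n t =>
    (t.1 + 2 ^ t.2.1 • xs n (I t), E (js n (I t)) (f (xs n (I t)) (js n (I t))) t.2.1,
      insert (js n (I t)) t.2.2)) n
  have hst : ∀ n, st (n + 1) = ((st n).1 + 2 ^ (st n).2.1 • xs n (I (st n)),
    E (js n (I (st n))) (f (xs n (I (st n))) (js n (I (st n)))) (st n).2.1,
      insert (js n (I (st n))) (st n).2.2) := fun n => rfl
  let d : ℕ → ℕ := fun n => (st n).2.1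
  let x : ℕ → ∀ i, X i := fun n => xs n (I (st n))
  let j : ℕ → J := fun n => js n (I (st n))
  have hd : StrictMono d := by
    apply strictMono_nat_of_lt_succ
    intro n
    simp only [d]
    rw [hst]
    exact hE1 _ _ _
  have hd2 : ∀ n, ∀ c' : Y (j n), 2 ^ (d n) • f (x n) (j n) ≠ 2 ^ (d (n + 1)) • c' := by
    intro n
    have : d (n + 1) = E (j n) (f (x n) (j n)) (d n) := by
      simp only [d]
      rw [hst]
    rw [this]
    exact hE2 _ _ _ (hne _ _)
  have hs : ∀ n, (st n).1 = ∑ k ∈ range n, 2 ^ (d k) • x k := by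
    intro n
    induction n with
    | zero => rfl
    | succ n ih =>
      rw [Finset.sum_range_succ, ← ih, hst]
  have hT : ∀ n k, k < n → j k ∈ (st n).2.2 := by
    intro n
    induction n with
    | zero => intro k hk; omega
    | succ n ih =>
      intro k hk
      rw [hst]
      simp only
      rw [Finset.mem_insert]
      rcases Nat.lt_succ_iff_lt_or_eq.mp hk with h | h
      · exact Or.inr (ih k h)
      · left; rw [h]
  have hj : ∀ n, j n ∉ (st n).2.2 ∧ f (st n).1 (j n) = 0 := by
    intro n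
    have h := hjs n (I (st n))
    simp only [I, Finset.mem_union, not_or] at h
    refine ⟨h.1, ?_⟩
    have h2 := h.2
    simp only [supp, Set.Finite.mem_toFinset, Set.mem_ofPred_eq, not_not] at h2
    exact h2
  have hinj : Function.Injective j := by
    intro m n hmn
    rcases lt_trichotomy m n with h | h | h
    · exact absurd (hmn ▸ hT n m h) (hj n).1
    · exact h
    · exact absurd (hmn ▸ hT m n h) (hj m).1
  obtain ⟨y, hy⟩ := exists_sum ρ x (fun n i hi => hxs _ _ _ hi) d hd.monotone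
  have hfin := DFinsupp.finite_support (f y)
  apply Set.infinite_of_injective_forall_mem hinj _ hfin
  intro n
  rw [Set.mem_ofPred_eq]
  intro h0
  obtain ⟨w, -, hw⟩ := hy (n + 1)
  rw [Finset.sum_range_succ, ← hs] at hw
  have h1 : f y (j n) = f (st n).1 (j n) + 2 ^ (d n) • f (x n) (j n)
      + 2 ^ (d (n + 1)) • f w (j n) := by
    rw [hw]
    simp only [map_add, map_nsmul]
    rfl
  rw [(hj n).2, zero_add] at h1
  have h0' : f y (j n) = 0 := h0
  rw [h0'] at h1
  apply hd2 n (- f w (j n))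
  rw [smul_neg]
  exact eq_neg_of_add_eq_zero_left h1.symm

end Prod

end Pool.Agent.H93.Reid
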