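import Pool.Agent.H93.Reid.GoodPi

set_option autoImplicit false

/-!
The retract `A` of `D`, which is not `Good`.
-/

namespace Pool.Agent.H93.Reid

open Finset DirectSum

lemma phi_pow_zero_of_le {x : P} {i j : ℕ} (h : (phi ^ i) x = 0) (hij : i ≤ j) :
    (phi ^ j) x = 0 := by
  obtain ⟨k, rfl⟩ := Nat.exists_eq_add_of_le hij
  rw [add_comm, pow_add]
  show (phi ^ k) ((phi ^ i) x) = 0
  rw [h, map_zero]

/-- The union of the kernels of the powers of `phi`. -/
noncomputable def A : AddSubgroup P where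
  carrier := {x | ∃ j : ℕ, (phi ^ j) x = 0}
  zero_mem' := ⟨0, map_zero _⟩
  add_mem' := by
    rintro x y ⟨i, hi⟩ ⟨j, hj⟩
    refine ⟨i + j, ?_⟩
    rw [map_add, phi_pow_zero_of_le hi (Nat.le_add_right _ _),
      phi_pow_zero_of_le hj (Nat.le_add_left _ _), add_zero]
  neg_mem' := by
    rintro x ⟨i, hi⟩
    exact ⟨i, by rw [map_neg, hi, neg_zero]⟩

lemma phi_pow_theta_pow_apply (j : ℕ) (x : P) : (phi ^ (j + 1)) ((theta ^ j) x) = phi x :=
  DFunLike.congr_fun (phi_pow_theta_pow j) x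

lemma phi_pow_succ_apply (j : ℕ) (x : P) : (phi ^ (j + 1)) x = phi ((phi ^ j) x) := by
  rw [pow_succ']
  rfl

/-- `g j` is the identity on the kernel of `phi ^ j`. -/
noncomputable def g (j : ℕ) : P →+ A where
  toFun x := ⟨x - (theta ^ j) ((phi ^ j) x), j + 1, by
    rw [map_sub, phi_pow_theta_pow_apply, phi_pow_succ_apply, sub_self]⟩
  map_zero' := by
    apply Subtype.ext
    simp
  map_add' x y := by
    apply Subtype.ext
    simp only [map_add, AddSubgroup.coe_add]
    abel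

lemma g_val (j : ℕ) (x : P) : (g j x : P) = x - (theta ^ j) ((phi ^ j) x) := rfl

lemma g_val_of_ker (j : ℕ) (x : P) (h : (phi ^ j) x = 0) : (g j x : P) = x := by
  rw [g_val, h, map_zero, sub_zero]

/-- The section, as a function. -/
noncomputable def secFun (x : A) : D :=
  ∑ j ∈ range (Classical.choose x.2), DirectSum.of (fun _ : ℕ => P) j
    ((theta ^ j) ((phi ^ j) (x : P)))

lemma sum_of_apply (n j : ℕ) (u : ℕ → P) (hu : ∀ k, n ≤ k → u k = 0) :
    (∑ k ∈ range n, DirectSum.of (fun _ : ℕ => P) k (u k)) j = u j := by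
  rw [DFinsupp.finsetSum_apply]
  by_cases hn : j < n
  · rw [Finset.sum_eq_single j]
    · exact DirectSum.of_eq_same (β := fun _ : ℕ => P) _ _
    · intro b _ hb
      exact DirectSum.of_eq_of_ne (β := fun _ : ℕ => P) _ _ _ hb.symm
    · intro h
      exact absurd (Finset.mem_range.mpr hn) h
  · rw [hu j (by omega)]
    apply Finset.sum_eq_zero
    intro b hb
    rw [Finset.mem_range] at hb
    exact DirectSum.of_eq_of_ne (β := fun _ : ℕ => P) _ _ _ (by omega)

lemma secFun_apply (x : A) (j : ℕ) : secFun x j = (theta ^ j) ((phi ^ j) (x : P)) := by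
  unfold secFun
  apply sum_of_apply _ _ (fun j => (theta ^ j) ((phi ^ j) (x : P)))
  intro k hk
  show (theta ^ k) ((phi ^ k) (x : P)) = 0
  rw [phi_pow_zero_of_le (Classical.choose_spec x.2) hk, map_zero]

lemma secFun_eq (x : A) (n : ℕ) (hn : (phi ^ n) (x : P) = 0) :
    secFun x = ∑ j ∈ range n, DirectSum.of (fun _ : ℕ => P) j
      ((theta ^ j) ((phi ^ j) (x : P))) := by
  refine DFinsupp.ext fun j => ?_
  rw [secFun_apply]
  symm
  apply sum_of_apply n j (fun j => (theta ^ j) ((phi ^ j) (x : P)))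
  intro k hk
  show (theta ^ k) ((phi ^ k) (x : P)) = 0
  rw [phi_pow_zero_of_le hn hk, map_zero]

/-- The section. -/
noncomputable def sec : A →+ D where
  toFun := secFun
  map_zero' := by
    refine DFinsupp.ext fun j => ?_
    rw [secFun_apply]
    simp
  map_add' x y := by
    refine DFinsupp.ext fun j => ?_
    rw [secFun_apply]
    show _ = secFun x j + secFun y j
    rw [secFun_apply, secFun_apply]
    simp

lemma sec_apply (x : A) (j : ℕ) : sec x j = (theta ^ j) ((phi ^ j) (x : P)) :=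
  secFun_apply x j

/-- The retraction. -/
noncomputable def ret : D →+ A := DirectSum.toAddMonoid (fun j => g (j + 1))

lemma ret_sec (x : A) : ret (sec x) = x := by
  obtain ⟨n, hn⟩ : ∃ j : ℕ, (phi ^ j) (x : P) = 0 := x.2
  show ret (secFun x) = x
  rw [secFun_eq x n hn, map_sum]
  apply Subtype.ext
  rw [AddSubgroup.val_finsetSum]
  have h1 : ∀ j ∈ range n, ((ret (DirectSum.of (fun _ : ℕ => P) j
      ((theta ^ j) ((phi ^ j) (x : P)))) : A) : P)
      = (theta ^ j) ((phi ^ j) (x : P)) - (theta ^ (j + 1)) ((phi ^ (j + 1)) (x : P)) := by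
    intro j _
    unfold ret
    rw [DirectSum.toAddMonoid_of, g_val, phi_pow_theta_pow_apply, ← phi_pow_succ_apply]
  rw [Finset.sum_congr rfl h1, Finset.sum_range_sub' (fun j => (theta ^ j) ((phi ^ j) (x : P))),
    hn, map_zero, sub_zero]
  rfl

lemma retrA : Retr A := ⟨sec, ret, ret_sec⟩

lemma sepA : Sep A := retrA.sep

/-- A homomorphism from `P` to `A` maps a tail into some kernel. -/
lemma tail_in_ker (β : P →+ A) :
    ∃ N j : ℕ, ∀ x, Tail N x → (phi ^ j) ((β x : A) : P) = 0 := by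
  obtain ⟨N, J, hJ⟩ := chase (fun l : ℕ => l) (fun _ => sepP) (sec.comp β)
  obtain ⟨j, hj⟩ := Infinite.exists_notMem_finset J
  refine ⟨N, j + 1, fun x hx => ?_⟩
  have h1 : sec (β x) j = 0 := hJ x hx j hj
  rw [sec_apply] at h1
  rw [phi_pow_succ_apply, ← phi_pow_theta_pow_apply j, h1, map_zero]

/-- Extension of a finite tuple by zero. -/
noncomputable def ex (N : ℕ) (t : Fin N → F) : P := fun l => if h : l < N then t ⟨l, h⟩ else 0

lemma sub_ex_tail (N : ℕ) (x : P) : Tail N (x - ex N (fun i => x i)) := by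
  intro l hl
  simp [ex, hl]

/-- Elements of `IFac A` map into a countable set plus a kernel. -/
lemma ifac_countable (e : AddMonoid.End A) (he : e ∈ IFac A) :
    ∃ (j : ℕ) (C : Set P), C.Countable ∧
      ∀ x : A, ∃ c ∈ C, (phi ^ j) (((e x : A) : P) - c) = 0 := by
  unfold IFac at he
  induction he using AddSubgroup.closure_induction with
  | mem h hh =>
    obtain ⟨α, β, rfl⟩ := hh
    obtain ⟨N, j, hN⟩ := tail_in_ker β
    refine ⟨j, Set.range (fun t : Fin N → F => ((β (ex N t) : A) : P)),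
      Set.countable_range _, fun x => ?_⟩
    refine ⟨_, ⟨fun i => α x i, rfl⟩, ?_⟩
    have h1 := hN _ (sub_ex_tail N (α x))
    rw [map_sub] at h1
    exact h1
  | zero =>
    refine ⟨0, {0}, Set.countable_singleton _, fun x => ⟨0, rfl, ?_⟩⟩
    show (0 : P) - 0 = 0
    rw [sub_zero]
  | add x y _ _ hx hy =>
    obtain ⟨i, C, hC, hCx⟩ := hx
    obtain ⟨j, C', hC', hCy⟩ := hy
    refine ⟨i + j, Set.image2 (fun a b => a + b) C C', hC.image2 hC' _, fun z => ?_⟩
    obtain ⟨c, hc, hc'⟩ := hCx z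
    obtain ⟨d, hd, hd'⟩ := hCy z
    refine ⟨c + d, ⟨c, hc, d, hd, rfl⟩, ?_⟩
    have h1 : (((x + y) z : A) : P) - (c + d) = (((x z : A) : P) - c) + (((y z : A) : P) - d) := by
      show ((x z : A) : P) + ((y z : A) : P) - (c + d) = _
      abel
    rw [h1, map_add, phi_pow_zero_of_le hc' (Nat.le_add_right _ _),
      phi_pow_zero_of_le hd' (Nat.le_add_left _ _), add_zero]
  | neg x _ hx =>
    obtain ⟨i, C, hC, hCx⟩ := hx
    refine ⟨i, (fun a => -a) '' C, hC.image _, fun z => ?_⟩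
    obtain ⟨c, hc, hc'⟩ := hCx z
    refine ⟨-c, ⟨c, hc, rfl⟩, ?_⟩
    have h1 : (((-x) z : A) : P) - (-c) = - (((x z : A) : P) - c) := by
      show -((x z : A) : P) - (-c) = _
      abel
    rw [h1, map_neg, hc', neg_zero]

/-- Infinite sums of elements in sparse tails. -/
lemma exists_sparse_sum (m : ℕ → ℕ) (hm : StrictMono m) (a : ℕ → P)
    (ha : ∀ n, Tail (m n) (a n)) :
    ∃ y : P, ∀ n, ∃ w, Tail (m n) w ∧ y = ∑ k ∈ range n, a k + w := by
  refine ⟨fun l => ∑ k ∈ range (l + 1), a k l, fun n => ?_⟩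
  refine ⟨(fun l => ∑ k ∈ range (l + 1), a k l) - ∑ k ∈ range n, a k, ?_, by abel⟩
  intro l hl
  rw [Pi.sub_apply, Finset.sum_apply, sub_eq_zero]
  have h1 : ∀ k ≥ l + 1, a k l = 0 := fun k hk => ha k l (lt_of_lt_of_le hk (hm.id_le k))
  have h2 : ∀ k ≥ n, a k l = 0 := fun k hk => ha k l (lt_of_lt_of_le hl (hm.monotone hk))
  rcases le_total (l + 1) n with h | h
  · exact (Finset.eventually_constant_sum (u := fun k => a k l) h1 h).symm
  · exact Finset.eventually_constant_sum (u := fun k => a k l) h2 h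

/-- A nonzero element of `P` is `2 ^ d` times an element not divisible by `2`. -/
lemma exists_primitive (x : P) (hx : x ≠ 0) :
    ∃ (d : ℕ) (z : P), x = 2 ^ d • z ∧ ∀ z', z ≠ 2 • z' := by
  classical
  have hex : ∃ d : ℕ, ¬ ∃ z : P, x = 2 ^ d • z := by
    by_contra hcon
    push Not at hcon
    exact hx (sepP.sep x hcon)
  have h1 := Nat.find_spec hex
  have h0 : Nat.find hex ≠ 0 := by
    intro h
    apply h1
    rw [h]
    exact ⟨x, by simp⟩
  obtain ⟨d, hd⟩ := Nat.exists_eq_succ_of_ne_zero h0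
  have h2 := Nat.find_min hex (m := d) (by omega)
  push Not at h2
  obtain ⟨z, hz⟩ := h2
  refine ⟨d, z, hz, fun z' hz' => ?_⟩
  apply h1
  refine ⟨z', ?_⟩
  rw [hd, Nat.succ_eq_add_one, pow_succ, mul_smul, ← hz', hz]

end Pool.Agent.H93.Reid
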