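import Pool.Agent.H93.Reid.Phi

set_option autoImplicit false

/-!
The invariant `Good` and its permanence properties among retracts of `D = P^(ω)`.
-/

namespace Pool.Agent.H93.Reid

open Finset DirectSum

/-- Countable direct sum of copies of `P`. -/
abbrev D := DirectSum ℕ (fun _ => P)

/-- `x` vanishes before coordinate `N`. -/
def Tail (N : ℕ) (x : P) : Prop := ∀ l, l < N → x l = 0

/-- The group of endomorphisms which are finite sums of maps `X → P → X`. -/
def IFac (X : Type) [AddCommGroup X] : AddSubgroup (AddMonoid.End X) :=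
  AddSubgroup.closure {h | ∃ (α : X →+ P) (β : P →+ X), h = β.comp α}

lemma IFac_comp {X Y : Type} [AddCommGroup X] [AddCommGroup Y] (u : X →+ Y) (v : Y →+ X)
    (e : AddMonoid.End X) (he : e ∈ IFac X) :
    ((u.comp (e : X →+ X)).comp v : Y →+ Y) ∈ IFac Y := by
  unfold IFac at he
  induction he using AddSubgroup.closure_induction with
  | mem x hx =>
    obtain ⟨α, β, rfl⟩ := hx
    exact AddSubgroup.subset_closure ⟨α.comp v, u.comp β, rfl⟩
  | zero =>
    have : ((u.comp ((0 : AddMonoid.End X) : X →+ X)).comp v : Y →+ Y) = 0 := by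
      ext y
      exact map_zero u
    rw [this]
    exact (IFac Y).zero_mem
  | add x y _ _ hx hy =>
    have : ((u.comp ((x + y : AddMonoid.End X) : X →+ X)).comp v : Y →+ Y)
        = (u.comp (x : X →+ X)).comp v + (u.comp (y : X →+ X)).comp v := by
      ext t
      exact map_add u _ _
    rw [this]
    exact (IFac Y).add_mem hx hy
  | neg x _ hx =>
    have : ((u.comp ((-x : AddMonoid.End X) : X →+ X)).comp v : Y →+ Y)
        = - ((u.comp (x : X →+ X)).comp v) := by
      ext t
      exact map_neg u _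
    rw [this]
    exact (IFac Y).neg_mem hx

/-- The invariant. -/
def Good (X : Type) [AddCommGroup X] : Prop :=
  ∀ f : P →+ X, ∃ N : ℕ, ∃ e ∈ IFac X, (∀ x, e (e x) = e x) ∧
    ∀ x : P, Tail N x → e (f x) = f x

/-- `X` is a retract of `D`. -/
def Retr (X : Type) [AddCommGroup X] : Prop :=
  ∃ (s : X →+ D) (r : D →+ X), ∀ x, r (s x) = x

/-- Evaluation at an index. -/
noncomputable def ev {ι : Type} {X : ι → Type} [∀ i, AddCommGroup (X i)] (i : ι) :
    DirectSum ι X →+ X i := (DirectSum.component ℤ ι X i).toAddMonoidHom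

lemma ev_apply {ι : Type} {X : ι → Type} [∀ i, AddCommGroup (X i)] (i : ι)
    (x : DirectSum ι X) : ev i x = x i := rfl

lemma sepD : Sep D := by
  constructor
  · intro x hx
    refine DFinsupp.ext fun n => sepP.tf (x n) ?_
    rw [← ev_apply n x, ← map_nsmul, hx, map_zero]
  · intro x hx
    refine DFinsupp.ext fun n => sepP.sep (x n) fun d => ?_
    obtain ⟨c', hc'⟩ := hx d
    refine ⟨c' n, ?_⟩
    rw [← ev_apply n x, ← ev_apply n c', ← map_nsmul, ← hc']

lemma Retr.sep {X : Type} [AddCommGroup X] (h : Retr X) : Sep X := by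
  obtain ⟨s, r, hsr⟩ := h
  exact sepD.of_injective s (Function.LeftInverse.injective hsr)

lemma Retr.trans {X Y : Type} [AddCommGroup X] [AddCommGroup Y] (h : Retr X)
    (i : Y →+ X) (p : X →+ Y) (hip : ∀ y, p (i y) = y) : Retr Y := by
  obtain ⟨s, r, hsr⟩ := h
  exact ⟨s.comp i, p.comp r, fun y => by simp [hsr, hip]⟩

lemma good_of_countable {X : Type} [AddCommGroup X] [Countable X] (hX : Sep X) : Good X := by
  intro f
  obtain ⟨N, hN⟩ := slender (fun l : ℕ => l) hX f
  refine ⟨N, 0, (IFac X).zero_mem, fun x => rfl, fun x hx => ?_⟩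
  rw [hN x hx]
  rfl

lemma Good.of_equiv {X Y : Type} [AddCommGroup X] [AddCommGroup Y] (h : Good X)
    (E : X ≃+ Y) : Good Y := by
  intro f
  obtain ⟨N, e, he, hee, hef⟩ := h (E.symm.toAddMonoidHom.comp f)
  refine ⟨N, _, IFac_comp E.toAddMonoidHom E.symm.toAddMonoidHom e he, fun x => ?_,
    fun x hx => ?_⟩
  · show E (e (E.symm (E (e (E.symm x))))) = E (e (E.symm x))
    rw [E.symm_apply_apply, hee]
  · show E (e (E.symm (f x))) = f x
    have h1 := hef x hx
    have h2 : e (E.symm (f x)) = E.symm (f x) := h1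
    rw [h2, E.apply_symm_apply]

/-- Combining idempotents on finitely many coordinates, direct sums. -/
theorem good_directSum {ι : Type} {X : ι → Type} [∀ i, AddCommGroup (X i)]
    (hsep : ∀ i, Sep (X i)) (hX : ∀ i, Good (X i)) : Good (DirectSum ι X) := by
  classical
  intro f
  obtain ⟨N, I, hI⟩ := chase (fun l : ℕ => l) hsep f
  have h := fun i => hX i ((ev i).comp f)
  choose M e he hee hef using h
  let E : AddMonoid.End (DirectSum ι X) := ∑ i ∈ I,
    (((DirectSum.of X i).comp (e i : X i →+ X i)).comp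
      (ev i) : DirectSum ι X →+ DirectSum ι X)
  have hE : ∀ x : DirectSum ι X, E x = ∑ i ∈ I, DirectSum.of X i (e i (x i)) := by
    intro x
    show (∑ i ∈ I, (((DirectSum.of X i).comp (e i : X i →+ X i)).comp
      (ev i) : DirectSum ι X →+ DirectSum ι X)) x = _
    rw [AddMonoidHom.finsetSum_apply]
    rfl
  have hEi : ∀ (x : DirectSum ι X) (j : ι), E x j = if j ∈ I then e j (x j) else 0 := by
    intro x j
    rw [hE, DFinsupp.finsetSum_apply]
    split_ifs with hj
    · rw [Finset.sum_eq_single j]
      · exact DirectSum.of_eq_same _ _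
      · intro b _ hb
        exact DirectSum.of_eq_of_ne _ _ _ hb.symm
      · intro h
        exact absurd hj h
    · apply Finset.sum_eq_zero
      intro b hb
      exact DirectSum.of_eq_of_ne _ _ _ (fun h => hj (h ▸ hb))
  refine ⟨N + ∑ i ∈ I, M i, E, ?_, ?_, ?_⟩
  · apply AddSubgroup.sum_mem
    intro i _
    exact IFac_comp _ _ _ (he i)
  · intro x
    refine DFinsupp.ext fun j => ?_
    rw [hEi, hEi]
    split_ifs
    · rw [hee]
    · rfl
  · intro x hx
    refine DFinsupp.ext fun j => ?_
    rw [hEi]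
    split_ifs with hj
    · apply hef j x
      intro l hl
      apply hx
      have := Finset.single_le_sum (f := M) (fun i _ => Nat.zero_le _) hj
      omega
    · exact (hI x (fun i hi => hx i (by omega)) j hj).symm

end Pool.Agent.H93.Reid
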