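import Pool.Agent.H93.Reid.Good

set_option autoImplicit false

/-!
Permanence of `Good` under products which are retracts of `D`.
-/

namespace Pool.Agent.H93.Reid

open Finset DirectSum

lemma sepZ : Sep ℤ := by
  apply sepF.of_injective (Finsupp.singleAddHom 0)
  exact Finsupp.single_injective 0

section

variable {ι : Type} {X : ι → Type} [∀ i, AddCommGroup (X i)]

open Classical in
lemma finite_functional (h : (∀ i, X i) →+ ℤ) (x : ∀ i, X i) :
    {i | h (Pi.single i (x i)) ≠ 0}.Finite := by
  by_contra hinf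
  have hinf' : {i | h (Pi.single i (x i)) ≠ 0}.Infinite := hinf
  let ν := hinf'.natEmbedding
  let g : ℕ → ι := fun n => (ν n : ι)
  have hg : Function.Injective g := fun a b hab => ν.injective (Subtype.ext hab)
  let ρ : ι → ℕ := Function.extend g (fun n => n) (fun _ => 0)
  have hρ : ∀ n, ρ (g n) = n := fun n => hg.extend_apply _ _ n
  obtain ⟨N, hN⟩ := slender ρ sepZ h
  apply (ν N).2
  apply hN
  intro i hi
  by_cases hiN : i = g N
  · subst hiN
    rw [hρ] at hi
    exact absurd hi (lt_irrefl _)
  · exact Pi.single_eq_of_ne hiN _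

open Classical in
lemma countable_nontrivial (hR : Retr (∀ i, X i)) : {i | ∃ x : X i, x ≠ 0}.Countable := by
  obtain ⟨s, r, hsr⟩ := hR
  have hx : ∀ i, ∃ x : X i, (∃ y : X i, y ≠ 0) → x ≠ 0 := by
    intro i
    by_cases h : ∃ y : X i, y ≠ 0
    · obtain ⟨y, hy⟩ := h
      exact ⟨y, fun _ => hy⟩
    · exact ⟨0, fun h' => absurd h' h⟩
  choose x hx using hx
  let co : ℕ × ℕ × ℕ → (∀ i, X i) →+ ℤ := fun t =>
    (Finsupp.applyAddHom t.2.2).comp ((Pi.evalAddMonoidHom (fun _ : ℕ => F) t.2.1).comp
      ((ev t.1).comp s))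
  have hco : ∀ t y, co t y = s y t.1 t.2.1 t.2.2 := fun t y => rfl
  apply Set.Countable.mono _ (Set.countable_iUnion
    (fun t : ℕ × ℕ × ℕ => (finite_functional (co t) x).countable))
  intro i hi
  rw [Set.mem_iUnion]
  by_contra hcon
  push Not at hcon
  have h0 : s (Pi.single i (x i)) = 0 := by
    refine DFinsupp.ext fun n => ?_
    funext k
    ext u
    have h1 := hcon (n, k, u)
    have h2 : co (n, k, u) (Pi.single i (x i)) = 0 := by
      by_contra h3
      exact h1 h3
    rw [hco] at h2
    exact h2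
  have h4 : Pi.single i (x i) = (0 : ∀ i, X i) := by
    rw [← hsr (Pi.single i (x i)), h0, map_zero]
  apply hx i hi
  have h5 := congrFun h4 i
  rwa [Pi.single_eq_same] at h5

open Classical in
theorem good_pi (hR : Retr (∀ i, X i)) (hX : ∀ i, Good (X i)) : Good (∀ i, X i) := by
  intro f
  obtain ⟨ρ, hρ⟩ := Set.countable_iff_exists_injOn.mp (countable_nontrivial hR)
  obtain ⟨s, r, hsr⟩ := hR
  obtain ⟨N, J, hJ⟩ := chase ρ (fun _ => sepP) s
  have hfin : {i | (∃ x : X i, x ≠ 0) ∧ ρ i < N}.Finite := by
    apply Set.Finite.of_injOn (f := ρ) (t := Set.Iio N)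
    · intro i hi
      exact hi.2
    · exact hρ.mono (fun i hi => hi.1)
    · exact Set.finite_Iio N
  let I : Finset ι := hfin.toFinset
  have hI : ∀ i, i ∉ I → ρ i < N → ∀ x : X i, x = 0 := by
    intro i hi hN x
    by_contra hx
    exact hi (hfin.mem_toFinset.mpr ⟨⟨x, hx⟩, hN⟩)
  let τ : (∀ i, X i) →+ (∀ i, X i) :=
    { toFun := fun x i => if i ∈ I then 0 else x i
      map_zero' := by funext i; simp
      map_add' := by
        intro x y
        funext i
        simp only [Pi.add_apply]
        split_ifs <;> simp }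
  have hτ : ∀ x i, τ x i = if i ∈ I then 0 else x i := fun x i => rfl
  have hτN : ∀ x i, ρ i < N → τ x i = 0 := by
    intro x i hi
    rw [hτ]
    split_ifs with h
    · rfl
    · exact hI i h hi _
  have hτfac : ((τ : (∀ i, X i) →+ (∀ i, X i)) : AddMonoid.End (∀ i, X i)) ∈ IFac (∀ i, X i) := by
    have hsum : ((τ : (∀ i, X i) →+ (∀ i, X i)) : AddMonoid.End (∀ i, X i)) =
        ∑ j ∈ J, ((r.comp (DirectSum.of (fun _ : ℕ => P) j)).comp
          ((ev j).comp (s.comp τ)) : (∀ i, X i) →+ (∀ i, X i)) := by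
      apply AddMonoidHom.ext
      intro x
      have h1 : s (τ x) = ∑ j ∈ J, DirectSum.of (fun _ : ℕ => P) j (s (τ x) j) := by
        refine DFinsupp.ext fun n => ?_
        rw [DFinsupp.finsetSum_apply]
        by_cases hn : n ∈ J
        · rw [Finset.sum_eq_single n]
          · exact (DirectSum.of_eq_same (β := fun _ : ℕ => P) n (s (τ x) n)).symm
          · intro b _ hb
            exact DirectSum.of_eq_of_ne (β := fun _ : ℕ => P) _ _ _ hb.symm
          · intro h
            exact absurd hn h
        · rw [hJ (τ x) (hτN x) n hn]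
          symm
          apply Finset.sum_eq_zero
          intro b hb
          exact DirectSum.of_eq_of_ne (β := fun _ : ℕ => P) _ _ _
            (fun h : n = b => hn (by rw [h]; exact hb))
      calc τ x = r (s (τ x)) := (hsr _).symm
        _ = r (∑ j ∈ J, DirectSum.of (fun _ : ℕ => P) j (s (τ x) j)) := by rw [← h1]
        _ = ∑ j ∈ J, r (DirectSum.of (fun _ : ℕ => P) j (s (τ x) j)) := map_sum _ _ _
        _ = _ := by
          show _ = (∑ j ∈ J, ((r.comp (DirectSum.of (fun _ : ℕ => P) j)).comp
            ((ev j).comp (s.comp τ)) : (∀ i, X i) →+ (∀ i, X i))) x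
          rw [AddMonoidHom.finsetSum_apply]
          rfl
    rw [hsum]
    apply AddSubgroup.sum_mem
    intro j _
    exact AddSubgroup.subset_closure ⟨_, _, rfl⟩
  have h := fun i => hX i ((Pi.evalAddMonoidHom X i).comp f)
  choose M e he hee hef using h
  let E : AddMonoid.End (∀ i, X i) := (τ : AddMonoid.End (∀ i, X i)) + ∑ i ∈ I,
    (((AddMonoidHom.single X i).comp (e i : X i →+ X i)).comp
      (Pi.evalAddMonoidHom X i) : (∀ i, X i) →+ (∀ i, X i))
  have hE : ∀ x : ∀ i, X i, E x = τ x + ∑ i ∈ I, Pi.single i (e i (x i)) := by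
    intro x
    show τ x + (∑ i ∈ I, (((AddMonoidHom.single X i).comp (e i : X i →+ X i)).comp
      (Pi.evalAddMonoidHom X i) : (∀ i, X i) →+ (∀ i, X i))) x = _
    rw [AddMonoidHom.finsetSum_apply]
    rfl
  have hEi : ∀ (x : ∀ i, X i) (j : ι), E x j = if j ∈ I then e j (x j) else x j := by
    intro x j
    rw [hE, Pi.add_apply, Finset.sum_apply, hτ]
    split_ifs with hj
    · rw [zero_add, Finset.sum_eq_single j]
      · exact Pi.single_eq_same _ _
      · intro b _ hb
        exact Pi.single_eq_of_ne hb.symm _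
      · intro h
        exact absurd hj h
    · rw [add_eq_left]
      apply Finset.sum_eq_zero
      intro b hb
      exact Pi.single_eq_of_ne (fun h : j = b => hj (by rw [h]; exact hb)) _
  refine ⟨∑ i ∈ I, M i, E, ?_, ?_, ?_⟩
  · apply AddSubgroup.add_mem _ hτfac
    apply AddSubgroup.sum_mem
    intro i _
    exact IFac_comp _ _ _ (he i)
  · intro x
    funext j
    rw [hEi, hEi]
    split_ifs
    · rw [hee]
    · rfl
  · intro x hx
    funext j
    rw [hEi]
    split_ifs with hj
    · apply hef j x
      intro l hl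
      apply hx
      have := Finset.single_le_sum (f := M) (fun i _ => Nat.zero_le _) hj
      omega
    · rfl

end

end Pool.Agent.H93.Reid
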