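import Pool.Agent.H93.Reid.Counter

set_option autoImplicit false

/-!
`A` is not `Good`.
-/

namespace Pool.Agent.H93.Reid

open Finset DirectSum

lemma phi_pow_val_of_le {x : P} {i j : ℕ} (h : (phi ^ i) x = 0) (hij : i ≤ j) :
    ((g j x : A) : P) = x := g_val_of_ker j x (phi_pow_zero_of_le h hij)

/-- Decomposition modulo `2` of the kernel of `e`. -/
lemma kernel_mod_two (N : ℕ) (e : AddMonoid.End A)
    (hee : ∀ x, e (e x) = e x) (hef : ∀ x : P, Tail N x → e (g 1 x) = g 1 x) :
    ∃ S : Set A, S.Countable ∧ ∀ x : A, e x = 0 → ∃ c ∈ S, ∃ z : A, x = c + 2 • z := by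
  refine ⟨⋃ i : ℕ, Set.range (fun t : Fin (N + 1) → F =>
    g i (ex (N + 1) t) - e (g i (ex (N + 1) t))),
    Set.countable_iUnion (fun i => Set.countable_range _), fun x hx => ?_⟩
  obtain ⟨i, hi⟩ : ∃ j : ℕ, (phi ^ j) (x : P) = 0 := x.2
  set a : P := ex (N + 1) (fun l => (x : P) l) with ha
  set x' : P := (x : P) - a with hx'
  have htail : ∀ l, l < N + 1 → x' l = 0 := sub_ex_tail (N + 1) (x : P)
  obtain ⟨-, h2, h3⟩ := tail_decomp x' N htail
  set κ : P := x' - 2 • zeta x' with hκ
  have hk1 : (phi ^ 1) κ = 0 := by rw [pow_one]; exact h3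
  have hgκ : g (i + 1) κ = g 1 κ := by
    apply Subtype.ext
    rw [phi_pow_val_of_le hk1 (by omega), phi_pow_val_of_le hk1 le_rfl]
  have heκ : e (g (i + 1) κ) = g (i + 1) κ := by
    rw [hgκ]
    exact hef κ h2
  have hgx : g (i + 1) (x : P) = x := by
    apply Subtype.ext
    exact phi_pow_val_of_le hi (by omega)
  have hdec : (x : P) = a + (2 • zeta x' + κ) := by
    rw [hκ, hx']
    abel
  refine ⟨g (i + 1) a - e (g (i + 1) a), ?_, g (i + 1) (zeta x') - e (g (i + 1) (zeta x')), ?_⟩
  · rw [Set.mem_iUnion]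
    exact ⟨i + 1, _, rfl⟩
  · have h4 : x = g (i + 1) a + (2 • g (i + 1) (zeta x') + g (i + 1) κ) := by
      rw [← map_nsmul, ← map_add, ← map_add, ← hdec, hgx]
    have h5 : e x = e (g (i + 1) a) + (2 • e (g (i + 1) (zeta x')) + e (g (i + 1) κ)) := by
      conv_lhs => rw [h4]
      rw [map_add, map_add, map_nsmul]
    rw [heκ] at h5
    calc x = x - e x := by rw [hx, sub_zero]
      _ = (g (i + 1) a + (2 • g (i + 1) (zeta x') + g (i + 1) κ)) -
          (e (g (i + 1) a) + (2 • e (g (i + 1) (zeta x')) + g (i + 1) κ)) := by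
          rw [← h5, ← h4]
      _ = _ := by
          rw [smul_sub]
          abel

/-- If the kernel of `e` is countable modulo `2`, its intersection with each kernel of `phi ^ i`
meets some tail trivially. -/
lemma exists_tail_trivial (e : AddMonoid.End A) (S : Set A) (hS : S.Countable)
    (hmod : ∀ x : A, e x = 0 → ∃ c ∈ S, ∃ z : A, x = c + 2 • z) (i : ℕ) :
    ∃ m : ℕ, ∀ x : A, e x = 0 → (phi ^ i) (x : P) = 0 → Tail m (x : P) → x = 0 := by
  classical
  by_contra hcon
  push Not at hcon
  -- primitive elements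
  have hz : ∀ m : ℕ, ∃ z : P, Tail m z ∧ (phi ^ i) z = 0 ∧ e (g i z) = 0 ∧
      ∃ l, ∀ c : F, z l ≠ 2 • c := by
    intro m
    obtain ⟨x, hx1, hx2, hx3, hx4⟩ := hcon m
    have hx0 : (x : P) ≠ 0 := fun h => hx4 (Subtype.ext h)
    obtain ⟨d, z, hxz, hz⟩ := exists_primitive (x : P) hx0
    refine ⟨z, ?_, ?_, ?_, ?_⟩
    · intro l hl
      apply sepF.pow_tf d
      have := hx3 l hl
      rw [hxz] at this
      exact this
    · apply sepP.pow_tf d
      rw [← map_nsmul, ← hxz, hx2]
    · apply sepA.pow_tf d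
      rw [← map_nsmul, ← map_nsmul, ← hxz]
      have : g i (x : P) = x := Subtype.ext (g_val_of_ker i _ hx2)
      rw [this, hx1]
    · by_contra hl
      push Not at hl
      choose c hc using hl
      exact hz c (funext hc)
  choose z hz1 hz2 hz3 L hL using hz
  let m : ℕ → ℕ := fun n => Nat.rec 0 (fun _ mn => max mn (L mn) + 1) n
  have hm1 : ∀ n, m (n + 1) = max (m n) (L (m n)) + 1 := fun n => rfl
  have hm : StrictMono m := by
    apply strictMono_nat_of_lt_succ
    intro n
    rw [hm1]
    exact Nat.lt_succ_of_le (le_max_left _ _)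
  have hmL : ∀ n, L (m n) < m (n + 1) := by
    intro n
    rw [hm1]
    exact Nat.lt_succ_of_le (le_max_right _ _)
  let a : Set ℕ → ℕ → P := fun T n => if n ∈ T then z (m n) else 0
  have ha : ∀ T n, Tail (m n) (a T n) := by
    intro T n
    simp only [a]
    split_ifs
    · exact hz1 _
    · intro l _; rfl
  have ha2 : ∀ T n, (phi ^ i) (a T n) = 0 := by
    intro T n
    simp only [a]
    split_ifs
    · exact hz2 _
    · exact map_zero _
  have ha3 : ∀ T n, e (g i (a T n)) = 0 := by
    intro T n
    simp only [a]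
    split_ifs
    · exact hz3 _
    · rw [map_zero, map_zero]
  have hy := fun T => exists_sparse_sum m hm (a T) (ha T)
  choose y hy using hy
  -- y T lies in the kernels
  have hphi : ∀ T, (phi ^ i) (y T) = 0 := by
    intro T
    funext l
    obtain ⟨w, hw, hyw⟩ := hy T (l + 1)
    rw [hyw, map_add, map_sum, Finset.sum_eq_zero (fun n _ => ha2 T n), zero_add]
    exact phi_pow_tail i w _ hw l (lt_of_lt_of_le (Nat.lt_succ_self l) (hm.id_le _))
  have he : ∀ T, e (g i (y T)) = 0 := by
    intro T
    apply Subtype.ext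
    funext l
    let h : P →+ F := (Pi.evalAddMonoidHom (fun _ : ℕ => F) l).comp
      (A.subtype.comp ((e : A →+ A).comp (g i)))
    have hh : ∀ x, h x = ((e (g i x) : A) : P) l := fun x => rfl
    obtain ⟨M, hM⟩ := slender (fun l : ℕ => l) sepF h
    obtain ⟨w, hw, hyw⟩ := hy T M
    show ((e (g i (y T)) : A) : P) l = 0
    rw [← hh, hyw, map_add, map_sum]
    rw [hM w (fun l hl => hw l (lt_of_lt_of_le hl (hm.id_le M))), add_zero]
    apply Finset.sum_eq_zero
    intro n _
    rw [hh, ha3]
    rfl
  have hgy : ∀ T, ((g i (y T) : A) : P) = y T := fun T => g_val_of_ker i _ (hphi T)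
  have hc := fun T => hmod (g i (y T)) (he T)
  choose c hcS u hcu using hc
  obtain ⟨enc, henc⟩ := Set.countable_iff_exists_injOn.mp hS
  apply Function.cantor_injective (fun T : Set ℕ => enc (c T))
  intro T T' hTT
  have h1 : c T = c T' := henc (hcS T) (hcS T') hTT
  by_contra hne
  have hex : ∃ n, ¬ (n ∈ T ↔ n ∈ T') := by
    by_contra hall
    push Not at hall
    exact hne (Set.ext hall)
  obtain ⟨n, hn, hmin⟩ : ∃ n, ¬ (n ∈ T ↔ n ∈ T') ∧ ∀ k < n, (k ∈ T ↔ k ∈ T') := by
    refine ⟨Nat.find hex, Nat.find_spec hex, fun k hk => ?_⟩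
    have := Nat.find_min hex hk
    push Not at this
    exact this
  have hval : ∀ T, y T (L (m n)) = (∑ k ∈ range n, a T k) (L (m n)) + a T n (L (m n)) := by
    intro T
    obtain ⟨w, hw, hyw⟩ := hy T (n + 1)
    have h2 := congrFun hyw (L (m n))
    rw [Pi.add_apply, hw _ (hmL n), add_zero, Finset.sum_range_succ, Pi.add_apply] at h2
    exact h2
  have hsum : ∑ k ∈ range n, a T k = ∑ k ∈ range n, a T' k := by
    apply Finset.sum_congr rfl
    intro k hk
    rw [Finset.mem_range] at hk
    simp only [a, hmin k hk]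
  have hdiff : y T (L (m n)) - y T' (L (m n)) = 2 • ((u T : P) (L (m n)) - (u T' : P) (L (m n))) := by
    have h2 : (y T : P) - y T' = 2 • ((u T : P) - (u T' : P)) := by
      rw [← hgy T, ← hgy T']
      have e1 : ((g i (y T) : A) : P) = (c T : P) + 2 • (u T : P) := by
        conv_lhs => rw [hcu T]
        rfl
      have e2 : ((g i (y T') : A) : P) = (c T' : P) + 2 • (u T' : P) := by
        conv_lhs => rw [hcu T']
        rfl
      rw [e1, e2, h1, smul_sub]
      abel
    have h3 := congrFun h2 (L (m n))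
    exact h3
  rw [hval T, hval T', hsum, add_sub_add_left_eq_sub] at hdiff
  by_cases hT : n ∈ T
  · have hT' : n ∉ T' := fun h => hn ⟨fun _ => h, fun _ => hT⟩
    simp only [a, hT, hT', if_true, if_false] at hdiff
    rw [Pi.zero_apply, sub_zero] at hdiff
    exact hL (m n) _ hdiff
  · have hT' : n ∈ T' := by
      by_contra h
      exact hn ⟨fun h' => absurd h' hT, fun h' => absurd h' h⟩
    simp only [a, hT, hT', if_true, if_false] at hdiff
    rw [Pi.zero_apply, zero_sub] at hdiff
    apply hL (m n) (-((u T : P) (L (m n)) - (u T' : P) (L (m n))))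
    rw [smul_neg, ← hdiff, neg_neg]

/-- Test elements. -/
noncomputable def tx (c : Set ℕ) : P := by
  classical
  exact fun k => match k with
  | 0 => 0
  | k + 1 => if k ∈ c then Finsupp.single (Nat.pair (k + 1) 0) 1 else 0

lemma cm_single (l a b : ℕ) (v : ℤ) :
    cm l (Finsupp.single (Nat.pair a b) v) = if a = l then Finsupp.single b v else 0 := by
  have h : (Finsupp.single (Nat.pair a b) v : F) = mp a (Finsupp.single b v) := by
    show _ = Finsupp.mapDomain (fun r => Nat.pair a r) (Finsupp.single b v)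
    rw [Finsupp.mapDomain_single]
  rw [h, cm_mp]

open Classical in
lemma phi_tx (c : Set ℕ) (l : ℕ) :
    phi (tx c) l = match l with
      | 0 => 0
      | l + 1 => if l ∈ c then om (l + 1) • Finsupp.single 0 1 else 0 := by
  rw [phi_apply, Finset.sum_eq_single l]
  · cases l with
    | zero =>
      show om 0 • cm 0 0 = 0
      rw [map_zero, smul_zero]
    | succ l =>
      show om (l + 1) • cm (l + 1) (if l ∈ c then Finsupp.single (Nat.pair (l + 1) 0) 1 else 0) = _
      split_ifs with h
      · rw [cm_single, if_pos rfl]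
        simp [h]
      · rw [map_zero, smul_zero]
        simp [h]
  · intro k _ hk
    cases k with
    | zero =>
      show om 0 • cm l 0 = 0
      rw [map_zero, smul_zero]
    | succ k =>
      show om (k + 1) • cm l (if k ∈ c then Finsupp.single (Nat.pair (k + 1) 0) 1 else 0) = _
      split_ifs with h
      · rw [cm_single, if_neg hk, smul_zero]
      · rw [map_zero, smul_zero]
  · intro h
    exact absurd (Finset.mem_range.mpr (Nat.lt_succ_self l)) h

open Classical in
lemma phi_phi_tx (c : Set ℕ) : phi (phi (tx c)) = 0 := by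
  funext l
  rw [phi_apply]
  apply Finset.sum_eq_zero
  intro k hk
  rw [Finset.mem_range] at hk
  rw [phi_tx]
  cases k with
  | zero =>
    show om 0 • cm l 0 = 0
    rw [map_zero, smul_zero]
  | succ k =>
    show om (k + 1) • cm l (if k ∈ c then om (k + 1) • Finsupp.single 0 1 else 0) = _
    split_ifs with h
    · have h0 : (Finsupp.single 0 1 : F) = Finsupp.single (Nat.pair 0 0) 1 := rfl
      rw [map_nsmul, h0, cm_single, if_neg (by omega), smul_zero, smul_zero]
    · rw [map_zero, smul_zero]

lemma phi_tx_injective : Function.Injective (fun c : Set ℕ => phi (tx c)) := by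
  classical
  intro c c' h
  ext l
  have h1 := congrFun h (l + 1)
  simp only [phi_tx] at h1
  have hpos : om (l + 1) • (Finsupp.single 0 1 : F) ≠ 0 := by
    intro h0
    have h2 := DFunLike.congr_fun h0 0
    rw [Finsupp.smul_apply, Finsupp.single_eq_same] at h2
    have := om_pos (l + 1)
    simp at h2
    omega
  by_cases hl : l ∈ c <;> by_cases hl' : l ∈ c'
  · exact ⟨fun _ => hl', fun _ => hl⟩
  · simp only [hl, hl', if_true, if_false] at h1
    exact absurd h1 hpos
  · simp only [hl, hl', if_true, if_false] at h1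
    exact absurd h1.symm hpos
  · exact ⟨fun h => absurd h hl, fun h => absurd h hl'⟩

theorem not_good_A : ¬ Good A := by
  intro hgood
  obtain ⟨N, e, he, hee, hef⟩ := hgood (g 1)
  obtain ⟨j, C, hC, hCe⟩ := ifac_countable e he
  obtain ⟨S, hS, hmod⟩ := kernel_mod_two N e hee hef
  -- the kernel of `e` is countable
  have hker : {x : A | e x = 0}.Countable := by
    have hsub : {x : A | e x = 0} ⊆ ⋃ i : ℕ, {x : A | e x = 0 ∧ (phi ^ i) (x : P) = 0} := by
      intro x hx
      rw [Set.mem_iUnion]
      obtain ⟨i, hi⟩ : ∃ j : ℕ, (phi ^ j) (x : P) = 0 := x.2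
      exact ⟨i, hx, hi⟩
    apply Set.Countable.mono hsub
    apply Set.countable_iUnion
    intro i
    obtain ⟨m, hm⟩ := exists_tail_trivial e S hS hmod i
    apply Set.countable_of_injective_of_countable_image
      (f := fun x : A => (fun k : Fin m => (x : P) k : Fin m → F))
    · intro x hx y hy hxy
      have h1 : x - y = 0 := by
        apply hm
        · rw [map_sub, hx.1, hy.1, sub_zero]
        · rw [AddSubgroup.coe_sub, map_sub, hx.2, hy.2, sub_zero]
        · intro l hl
          have h2 := congrFun hxy ⟨l, hl⟩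
          rw [AddSubgroup.coe_sub, Pi.sub_apply, sub_eq_zero]
          exact h2
      exact sub_eq_zero.mp h1
    · exact Set.to_countable _
  -- the test elements
  let t : Set ℕ → A := fun c => ⟨(theta ^ j) (tx c), j + 2, by
    rw [phi_pow_succ_apply, phi_pow_theta_pow_apply, phi_phi_tx]⟩
  have ht : ∀ c, (phi ^ (j + 1)) (t c : P) = phi (tx c) :=
    fun c => phi_pow_theta_pow_apply j (tx c)
  have hcov : Set.range (fun c : Set ℕ => phi (tx c)) ⊆
      Set.image2 (fun (a : P) (b : A) => (phi ^ (j + 1)) (a + b)) C {x : A | e x = 0} := by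
    rintro _ ⟨c, rfl⟩
    obtain ⟨a, ha, ha'⟩ := hCe (t c)
    refine ⟨a, ha, t c - e (t c), ?_, ?_⟩
    · show e (t c - e (t c)) = 0
      rw [map_sub, hee, sub_self]
    · show (phi ^ (j + 1)) (a + ((t c - e (t c) : A) : P)) = phi (tx c)
      have h1 : (phi ^ (j + 1)) (((e (t c) : A) : P) - a) = 0 :=
        phi_pow_zero_of_le ha' (Nat.le_succ j)
      have h2 : a + ((t c - e (t c) : A) : P) = (t c : P) - (((e (t c) : A) : P) - a) := by
        rw [AddSubgroup.coe_sub]
        abel
      rw [h2, map_sub, h1, sub_zero, ht]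
  have hcount : (Set.range (fun c : Set ℕ => phi (tx c))).Countable :=
    (hC.image2 hker _).mono hcov
  obtain ⟨enc, henc⟩ := Set.countable_iff_exists_injOn.mp hcount
  apply Function.cantor_injective (fun c : Set ℕ => enc (phi (tx c)))
  intro c c' h
  exact phi_tx_injective (henc ⟨c, rfl⟩ ⟨c', rfl⟩ h)

end Pool.Agent.H93.Reid
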