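import Pool.Agent.H93.Reid.Basic

set_option autoImplicit false

/-!
The group `P = ∏ ℤ^(ω)` and the endomorphisms `phi`, `theta` with `phi * phi * theta = phi`.
-/

namespace Pool.Agent.H93.Reid

open Finset

/-- Free abelian group of countable rank. -/
abbrev F := ℕ →₀ ℤ

/-- Countable product of copies of `F`. -/
abbrev P := ℕ → F

/-- Row `l` of an element of `F` indexed by pairs. -/
noncomputable def cm (l : ℕ) : F →+ F :=
  Finsupp.comapDomain.addMonoidHom (f := fun r => Nat.pair l r)
    (fun _ _ h => (Nat.pair_eq_pair.mp h).2)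

lemma cm_apply (l : ℕ) (a : F) (r : ℕ) : cm l a r = a (Nat.pair l r) := rfl

/-- Insert as row `c`. -/
noncomputable def mp (c : ℕ) : F →+ F :=
  Finsupp.mapDomain.addMonoidHom (fun r => Nat.pair c r)

/-- Restriction to the indices whose first component is at least `k`. -/
noncomputable def fl (k : ℕ) : F →+ F :=
  Finsupp.filterAddHom (fun i => k ≤ (Nat.unpair i).1)

lemma cm_mp (l c : ℕ) (a : F) : cm l (mp c a) = if c = l then a else 0 := by
  ext r
  rw [cm_apply]
  show Finsupp.mapDomain (fun r => Nat.pair c r) a (Nat.pair l r) = _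
  split_ifs with h
  · subst h
    exact Finsupp.mapDomain_apply (fun _ _ h => (Nat.pair_eq_pair.mp h).2) a r
  · rw [Finsupp.mapDomain_of_notMem_range]
    · rfl
    · rintro ⟨s, hs⟩
      exact h (Nat.pair_eq_pair.mp hs).1

lemma cm_fl (l k : ℕ) (a : F) : cm l (fl k a) = if k ≤ l then cm l a else 0 := by
  ext r
  rw [cm_apply]
  show (Finsupp.filter (fun i => k ≤ (Nat.unpair i).1) a) (Nat.pair l r) = _
  rw [Finsupp.filter_apply, Nat.unpair_pair]
  split_ifs with h
  · rfl
  · rfl

/-- The weights `2 ^ (2 ^ k - 1)`. -/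
def om : ℕ → ℕ
  | 0 => 1
  | k + 1 => 2 * (om k * om k)

lemma om_pos (k : ℕ) : 0 < om k := by
  induction k with
  | zero => exact Nat.one_pos
  | succ k ih => simp only [om]; positivity

/-- The basic endomorphism. -/
noncomputable def phi : AddMonoid.End P where
  toFun x l := ∑ k ∈ range (l + 1), om k • cm l (x k)
  map_zero' := by
    funext l
    simp
  map_add' x y := by
    funext l
    simp only [Pi.add_apply, map_add, smul_add, Finset.sum_add_distrib]

lemma phi_apply (x : P) (l : ℕ) : phi x l = ∑ k ∈ range (l + 1), om k • cm l (x k) := rfl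

/-- The partial inverse. -/
noncomputable def theta : AddMonoid.End P where
  toFun x c := mp c (2 • fl (c + 1) (x (c + 1)) + if c = 0 then x 0 else 0)
  map_zero' := by
    funext c
    simp
  map_add' x y := by
    funext c
    show _ = mp c _ + mp c _
    rw [← map_add]
    congr 1
    simp only [Pi.add_apply, map_add, smul_add]
    split_ifs
    · abel
    · simp

lemma theta_apply (x : P) (c : ℕ) :
    theta x c = mp c (2 • fl (c + 1) (x (c + 1)) + if c = 0 then x 0 else 0) := rfl

/-- Auxiliary endomorphism: `phi x = phi (x 0) + 2 phi (zeta x)`. -/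
noncomputable def zeta : AddMonoid.End P where
  toFun x k := om k • fl (k + 1) (x (k + 1))
  map_zero' := by
    funext k
    simp
  map_add' x y := by
    funext k
    simp only [Pi.add_apply, map_add, smul_add]

lemma zeta_apply (x : P) (k : ℕ) : zeta x k = om k • fl (k + 1) (x (k + 1)) := rfl

lemma phi_zeta (x : P) : phi (Pi.single 0 (x 0)) + 2 • phi (zeta x) = phi x := by
  funext l
  rw [Pi.add_apply, Pi.smul_apply, phi_apply, phi_apply, phi_apply]
  rw [Finset.sum_range_succ' (fun k => om k • cm l (x k)),
    Finset.sum_range_succ' (fun k => om k • cm l ((Pi.single 0 (x 0) : P) k)),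
    Finset.sum_range_succ (fun k => om k • cm l (zeta x k))]
  have h1 : ∑ k ∈ range l, om (k + 1) • cm l ((Pi.single 0 (x 0) : P) (k + 1)) = 0 := by
    apply Finset.sum_eq_zero
    intro k _
    rw [Pi.single_eq_of_ne (by omega), map_zero, smul_zero]
  have h2 : om l • cm l (zeta x l) = 0 := by
    rw [zeta_apply, map_nsmul, cm_fl, if_neg (by omega), smul_zero, smul_zero]
  rw [h1, h2, Pi.single_eq_same, zero_add, add_zero, add_comm, Finset.smul_sum]
  congr 1
  apply Finset.sum_congr rfl
  intro k hk
  rw [Finset.mem_range] at hk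
  rw [zeta_apply, map_nsmul, cm_fl, if_pos (by omega), smul_smul, smul_smul]
  simp only [om]
  congr 1
  ring

lemma phi_theta (x : P) : phi (theta x) = Pi.single 0 (x 0) + 2 • zeta x := by
  funext l
  rw [phi_apply, Finset.sum_eq_single l]
  · rw [theta_apply, cm_mp, if_pos rfl, Pi.add_apply, Pi.smul_apply, zeta_apply]
    rw [smul_add, add_comm]
    congr 1
    · split_ifs with h
      · subst h
        simp [om]
      · rw [Pi.single_eq_of_ne h, smul_zero]
    · rw [smul_smul, smul_smul, mul_comm]
  · intro c _ hc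
    rw [theta_apply, cm_mp, if_neg hc, smul_zero]
  · intro h
    exact absurd (Finset.mem_range.mpr (Nat.lt_succ_self l)) h

lemma phi_phi_theta : phi * phi * theta = phi := by
  apply AddMonoidHom.ext
  intro x
  show phi (phi (theta x)) = phi x
  rw [phi_theta, map_add, map_nsmul, phi_zeta]

lemma phi_pow_theta_pow (j : ℕ) : phi ^ (j + 1) * theta ^ j = phi := by
  induction j with
  | zero => simp
  | succ j ih =>
    calc phi ^ (j + 1 + 1) * theta ^ (j + 1)
        = phi * (phi ^ (j + 1) * theta ^ j) * theta := by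
          rw [pow_succ' phi (j + 1), pow_succ theta j]
          simp only [mul_assoc]
      _ = phi := by rw [ih, phi_phi_theta]

/-- `phi` respects the filtration. -/
lemma phi_tail (x : P) (N : ℕ) (hx : ∀ l, l < N → x l = 0) : ∀ l, l < N → phi x l = 0 := by
  intro l hl
  rw [phi_apply]
  apply Finset.sum_eq_zero
  intro k hk
  rw [Finset.mem_range] at hk
  rw [hx k (by omega), map_zero, smul_zero]

lemma phi_pow_tail (j : ℕ) (x : P) (N : ℕ) (hx : ∀ l, l < N → x l = 0) :
    ∀ l, l < N → (phi ^ j) x l = 0 := by
  induction j with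
  | zero => simpa using hx
  | succ j ih =>
    rw [pow_succ']
    exact phi_tail _ N ih

/-- Elements beyond coordinate `N` are `2 z + κ` with `κ` in the kernel of `phi`. -/
lemma tail_decomp (x : P) (N : ℕ) (hx : ∀ l, l < N + 1 → x l = 0) :
    (∀ l, l < N → zeta x l = 0) ∧ (∀ l, l < N → (x - 2 • zeta x) l = 0) ∧
      phi (x - 2 • zeta x) = 0 := by
  have h1 : ∀ l, l < N → zeta x l = 0 := by
    intro l hl
    rw [zeta_apply, hx (l + 1) (by omega), map_zero, smul_zero]
  refine ⟨h1, ?_, ?_⟩
  · intro l hl
    rw [Pi.sub_apply, Pi.smul_apply, h1 l hl, hx l (by omega), smul_zero, sub_zero]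
  · rw [map_sub, map_nsmul]
    have h2 := phi_zeta x
    rw [hx 0 (by omega), Pi.single_zero, map_zero, zero_add] at h2
    rw [h2, sub_self]

lemma sepP : Sep P := by
  constructor
  · intro x hx
    funext l
    ext r
    have h := congrArg (fun z : P => z l r) hx
    simp only [Pi.smul_apply, Finsupp.smul_apply, Pi.zero_apply, Finsupp.coe_zero] at h
    simp only [Pi.zero_apply, Finsupp.coe_zero]
    simpa using h
  · intro x hx
    funext l
    ext r
    simp only [Pi.zero_apply, Finsupp.coe_zero]
    by_contra hne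
    have hdvd : ∀ d : ℕ, (2 : ℤ) ^ d ∣ x l r := by
      intro d
      obtain ⟨c', hc'⟩ := hx d
      have h := congrArg (fun z : P => z l r) hc'
      simp only [Pi.smul_apply, Finsupp.smul_apply] at h
      refine ⟨c' l r, ?_⟩
      rw [h]
      simp
    have hpos : 0 < |x l r| := abs_pos.mpr hne
    obtain ⟨n, hn⟩ : ∃ n : ℕ, |x l r| < 2 ^ n := by
      refine ⟨(x l r).natAbs, ?_⟩
      have : (x l r).natAbs < 2 ^ (x l r).natAbs := Nat.lt_two_pow_self
      rw [Int.abs_eq_natAbs]
      exact_mod_cast this
    have h2 := Int.le_of_dvd hpos ((dvd_abs _ _).mpr (hdvd n))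
    omega

lemma sepF : Sep F := by
  apply Sep.of_injective sepP (AddMonoidHom.single (fun _ : ℕ => F) 0)
  intro a b h
  have h' := congrFun h 0
  simpa using h'

end Pool.Agent.H93.Reid
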